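import Mathlib
import Pool.Agent.W512.HK

set_option autoImplicit false

namespace Pool.Agent.Y241.HBN

open Pool.Agent.W512 Pool.Agent.W512.Harb

noncomputable section

/-- The eight points `(1, ±1/5), (-1, ±7/5), (±1/5, 1), (±7/5, -1)`. -/
def E8 : Set (ℂ × ℂ) :=
  {(1, 1/5), (1, -1/5), (-1, 7/5), (-1, -7/5), (1/5, 1), (-1/5, 1), (7/5, -1), (-7/5, -1)}

/-- The preimage of the eight points under `(x, y) ↦ (x, y ^ 2 + l)`. -/
def pre (l : ℂ) : Set (ℂ × ℂ) := {p | (p.1, p.2 ^ 2 + l) ∈ E8}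

/-- The blow-up in `Z` has no constant in the bound of Harbourne. -/
def Fails (Z : Finset (ℂ × ℂ)) : Prop :=
  ∀ α : ℝ, ∃ P : MvPolynomial (Fin 2) ℂ,
    Irreducible P ∧ Harbourne.h0 Z P = 1 ∧ α * (Harbourne.h0 Z P : ℝ) < (Harbourne.h1 Z P : ℝ)

lemma mem_E8_iff (x y : ℂ) : (x, y) ∈ E8 ↔
    ∃ i : Fin 4 ⊕ Fin 4, x = Sum.elim ex ev i ∧ y = Sum.elim ev ex i := by
  unfold E8
  constructor
  · intro h
    simp only [Set.mem_insert_iff, Set.mem_singleton_iff, Prod.mk.injEq] at h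
    rcases h with h | h | h | h | h | h | h | h
    · exact ⟨Sum.inl 0, h.1, h.2⟩
    · exact ⟨Sum.inl 1, h.1, h.2⟩
    · exact ⟨Sum.inl 2, h.1, h.2⟩
    · exact ⟨Sum.inl 3, h.1, h.2⟩
    · exact ⟨Sum.inr 0, h.1, h.2⟩
    · exact ⟨Sum.inr 1, h.1, h.2⟩
    · exact ⟨Sum.inr 2, h.1, h.2⟩
    · exact ⟨Sum.inr 3, h.1, h.2⟩
  · rintro ⟨i, rfl, rfl⟩
    rcases i with i | i <;> fin_cases i <;> simp [ex, ev]

theorem family : ∃ C : Set ℂ, C.Countable ∧ ∀ l : ℂ, l ∉ C →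
    (pre l).ncard = 16 ∧ (pre l).Finite ∧
    ∀ Z : Finset (ℂ × ℂ), pre l ⊆ Z → ∀ n : ℕ, ∃ P : MvPolynomial (Fin 2) ℂ,
      Irreducible P ∧ Harbourne.h0 Z P = 1 ∧ n ≤ Harbourne.h1 Z P := by
  classical
  choose F A B u w hF hn hA using fun n : ℕ => exists_good (max n 2)
  have hA2 : ∀ n, 2 ≤ A n := fun n => (le_max_right _ _).trans (hA n)
  have haff := fun n => (hF n).aff (hA2 n)
  have hgen := fun n => generic (dh (F n)) (haff n).irr (by
    rw [(haff n).dX]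
    have := hA2 n
    omega)
  choose r hr0 hr using hgen
  set s : Finset ℂ := Finset.univ.image (Sum.elim ev ex : Fin 4 ⊕ Fin 4 → ℂ) with hs
  refine ⟨⋃ n, ((r n).roots.toFinset : Set ℂ) ∪ (s : Set ℂ),
    Set.countable_iUnion fun n => (Finset.countable_toSet _).union (Finset.countable_toSet _), ?_⟩
  intro l hl0
  simp only [Set.mem_iUnion, Set.mem_union, not_exists, not_or] at hl0
  have hl : ∀ n, (r n).eval l ≠ 0 := by
    intro n h
    apply (hl0 n).1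
    rw [Finset.mem_coe, Multiset.mem_toFinset, Polynomial.mem_roots (hr0 n)]
    exact h
  have hls : l ∉ s := fun h => (hl0 0).2 h
  have hroot : ∀ i : Fin 4 ⊕ Fin 4, ∃ z : ℂ, z ^ 2 = (Sum.elim ev ex : Fin 4 ⊕ Fin 4 → ℂ) i - l :=
    fun i => IsAlgClosed.exists_pow_nat_eq _ (by norm_num)
  choose ss hss using hroot
  have hss0 : ∀ i, ss i ≠ 0 := by
    intro i h
    apply hls
    have h1 := hss i
    rw [h] at h1
    rw [hs, Finset.mem_image]
    exact ⟨i, Finset.mem_univ _, by linear_combination -h1⟩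
  have hinj := pts_inj ss hss hss0
  have hset : pre l = ((Finset.univ.image (fun i : (Fin 4 ⊕ Fin 4) ⊕ (Fin 4 ⊕ Fin 4) =>
      ((Sum.elim (Sum.elim ex ev) (Sum.elim ex ev) i : ℂ),
        (Sum.elim ss (fun i => - ss i) i : ℂ))) : Finset (ℂ × ℂ)) : Set (ℂ × ℂ)) := by
    ext ⟨x, y⟩
    simp only [pre, Set.mem_setOf_eq, Finset.coe_image, Finset.coe_univ, Set.image_univ,
      Set.mem_range]
    rw [mem_E8_iff]
    constructor
    · rintro ⟨i, hx, hy⟩
      have h1 : (y - ss i) * (y + ss i) = 0 := by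
        have := hss i
        linear_combination hy - this
      rcases mul_eq_zero.mp h1 with h2 | h2
      · refine ⟨Sum.inl i, ?_⟩
        simp only [Sum.elim_inl, Prod.mk.injEq]
        exact ⟨hx.symm, by linear_combination -h2⟩
      · refine ⟨Sum.inr i, ?_⟩
        simp only [Sum.elim_inr, Prod.mk.injEq]
        exact ⟨hx.symm, by linear_combination -h2⟩
    · rintro ⟨i | i, h⟩
      · simp only [Sum.elim_inl, Prod.mk.injEq] at h
        refine ⟨i, h.1.symm, ?_⟩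
        rw [← h.2, hss i]
        ring
      · simp only [Sum.elim_inr, Prod.mk.injEq] at h
        refine ⟨i, h.1.symm, ?_⟩
        rw [← h.2, neg_sq, hss i]
        ring
  refine ⟨?_, ?_, ?_⟩
  · rw [hset, Set.ncard_coe_finset, Finset.card_image_of_injective _ hinj]
    simp
  · rw [hset]
    exact Finset.finite_toSet _
  · intro Z hZ n
    have hZ' : ∀ i : (Fin 4 ⊕ Fin 4) ⊕ (Fin 4 ⊕ Fin 4),
        ((Sum.elim (Sum.elim ex ev) (Sum.elim ex ev) i : ℂ),
          (Sum.elim ss (fun i => - ss i) i : ℂ)) ∈ Z := by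
      intro i
      have h1 : ((Sum.elim (Sum.elim ex ev) (Sum.elim ex ev) i : ℂ),
          (Sum.elim ss (fun i => - ss i) i : ℂ)) ∈ pre l := by
        rw [hset, Finset.mem_coe]
        exact Finset.mem_image_of_mem _ (Finset.mem_univ i)
      exact hZ h1
    have h1 := (haff n).translate l
    have hc : (Polynomial.taylor (Polynomial.C l) (dh (F n))).coeff 0 =
        (dh (F n)).eval (Polynomial.C l) := Polynomial.taylor_coeff_zero _ _
    obtain ⟨hsf, hun⟩ := hr n l (hl n)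
    have h2 := h1.cover ss hss hss0 (by rw [hc]; exact hsf) (by rw [hc]; exact hun)
    obtain ⟨h3, h4⟩ := dims h2 hinj Z hZ'
    refine ⟨_, ?_, h3, ?_⟩
    · exact (MulEquiv.irreducible_iff phi).2 h2.irr
    · refine le_trans ((le_max_left n 2).trans (hA n)) ?_
      have e1 := (hn n).lin
      have e2 := (hn n).quad
      have e3 : ∑ i : (Fin 4 ⊕ Fin 4) ⊕ (Fin 4 ⊕ Fin 4),
          ((Sum.elim (Sum.elim (u n) (w n)) (Sum.elim (u n) (w n)) i : ℕ) *
            (Sum.elim (Sum.elim (u n) (w n)) (Sum.elim (u n) (w n)) i : ℕ) +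
            (Sum.elim (Sum.elim (u n) (w n)) (Sum.elim (u n) (w n)) i : ℕ)) =
          2 * ((∑ i, u n i ^ 2 + ∑ i, w n i ^ 2) + (∑ i, u n i + ∑ i, w n i)) := by
        simp only [Fintype.sum_sum_type, Sum.elim_inl, Sum.elim_inr, Finset.sum_add_distrib, pow_two]
        ring
      rw [e3, e2] at h4
      have e4 : 2 * ((A n + 1) * (2 * B n + 1)) = 2 * (2 * A n * B n) + 2 * A n + 4 * B n + 2 := by
        ring
      rw [e4] at h4
      omega

lemma fails_of {Z : Finset (ℂ × ℂ)} (h : ∀ n : ℕ, ∃ P : MvPolynomial (Fin 2) ℂ,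
      Irreducible P ∧ Harbourne.h0 Z P = 1 ∧ n ≤ Harbourne.h1 Z P) : Fails Z := by
  intro α
  obtain ⟨n, hn⟩ := exists_nat_gt α
  obtain ⟨P, hP, h0, h1⟩ := h n
  refine ⟨P, hP, h0, ?_⟩
  rw [h0, Nat.cast_one, mul_one]
  exact lt_of_lt_of_le hn (by exact_mod_cast h1)

theorem final : ∃ C : Set ℂ, C.Countable ∧ ∀ l : ℂ, l ∉ C → (pre l).ncard = 16 ∧
    ∀ Z : Finset (ℂ × ℂ), pre l ⊆ Z → Fails Z := by
  obtain ⟨C, hC, h⟩ := family
  exact ⟨C, hC, fun l hl => ⟨(h l hl).1, fun Z hZ => fails_of ((h l hl).2.2 Z hZ)⟩⟩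

theorem final2 : ∀ S : Finset (ℂ × ℂ), ∃ Z : Finset (ℂ × ℂ), S ⊆ Z ∧ Z.card ≤ S.card + 16 ∧
    ∀ Z' : Finset (ℂ × ℂ), Z ⊆ Z' → Fails Z' := by
  classical
  intro S
  obtain ⟨C, hC, h⟩ := family
  obtain ⟨l, hl⟩ := (hC.dense_compl ℝ).nonempty
  obtain ⟨h1, h2, h3⟩ := h l hl
  refine ⟨S ∪ h2.toFinset, Finset.subset_union_left, ?_, ?_⟩
  · refine (Finset.card_union_le _ _).trans ?_
    rw [← Set.ncard_eq_toFinset_card _ h2, h1]
  · intro Z' hZ'
    apply fails_of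
    apply h3
    intro p hp
    apply hZ'
    apply Finset.mem_union_right
    rwa [Set.Finite.mem_toFinset]

theorem final3 (n : ℕ) (hn : 16 ≤ n) : ∃ Z : Finset (ℂ × ℂ), Z.card = n ∧ Fails Z := by
  classical
  obtain ⟨C, hC, h⟩ := family
  obtain ⟨l, hl⟩ := (hC.dense_compl ℝ).nonempty
  obtain ⟨h1, h2, h3⟩ := h l hl
  have hc : h2.toFinset.card = 16 := by
    rw [← Set.ncard_eq_toFinset_card _ h2, h1]
  obtain ⟨Z, hZ, hZn⟩ := Infinite.exists_superset_card_eq h2.toFinset n (by rw [hc]; exact hn)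
  refine ⟨Z, hZn, fails_of (h3 Z ?_)⟩
  intro p hp
  apply hZ
  rwa [Set.Finite.mem_toFinset]

end

end Pool.Agent.Y241.HBN
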